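import Pool.Agent.Helper60.L1F.SUFFCH
import Pool.Agent.Helper60.L1Full.Final
import Pool.Agent.Helper33.L1F.MAC
import Pool.Agent.Helper96.L1F.MAR

/-! The complete classification. -/

namespace DualL1

open MeasureTheory Cardinal Filter
open scoped ENNReal Classical

universe u v w

/-- The four parts of the classification, for one measure `μ`. -/
theorem full_classification {Ω : Type u} [MeasurableSpace Ω] (μ : Measure Ω) {𝕜 : Type v}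
    [RCLike 𝕜] :
    ((∀ κ : Cardinal.{u}, ℵ₀ ≤ κ → Cond μ κ) →
      IsoToDual.{max u v, v, max u v} 𝕜 (Lp 𝕜 1 μ)) ∧
    (IsoToDual.{max u v, v, w} 𝕜 (Lp 𝕜 1 μ) →
      ∀ κ : Cardinal.{u}, ℵ₀ ≤ κ → κ ≠ ℵ₁ → Cond μ κ) ∧
    ((𝔠 : Cardinal.{0}) = ℵ₁ → (∀ κ : Cardinal.{u}, ℵ₀ ≤ κ → κ ≠ ℵ₁ → Cond μ κ) →
      IsoToDual.{max u v, v, max u v} 𝕜 (Lp 𝕜 1 μ)) ∧
    (MartinAxiomAlephOne → IsoToDual.{max u v, v, w} 𝕜 (Lp 𝕜 1 μ) →
      ∀ κ : Cardinal.{u}, ℵ₀ ≤ κ → Cond μ κ) :=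
  classification_of suff_holds neco_holds nec_holds riesz_holds st_SUFFCH
    (st_MAR st_MAC st_HB) μ

end DualL1
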