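import Pool.Agent.Helper60.L1Full.Stmts
import Pool.Agent.Helper2.DualL1.Decomp

/-! Module DEC: `L¹(μ)` is the `ℓ¹`-sum of the `L¹` spaces of the pieces. -/

namespace DualL1

open MeasureTheory Cardinal Filter
open scoped ENNReal Classical

universe u v

theorem st_DEC : ST_DEC.{u, v} := by
  intro 𝕜 _ Ω _ μ 𝒟 h𝒟
  obtain ⟨h1, h2, h3⟩ := h𝒟
  have hm : ∀ A ∈ 𝒟, MeasurableSet A := by
    intro A hA
    rcases h1 A hA with h | ⟨κ, -, h⟩
    · exact h.1.1
    · exact h.1.1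
  refine ⟨fun A => extL μ 𝕜 (hm A.1 A.2), ?_, ?_⟩
  · intro S x
    rw [norm_sum_of_disjoint S (fun A => extL μ 𝕜 (hm A.1 A.2) (x A)) (fun A _ B _ hAB => ?_)]
    · exact Finset.sum_congr rfl (fun A _ => (extL μ 𝕜 (hm A.1 A.2)).norm_map _)
    · exact ae_zero_or (h2 A.2 B.2 (fun h => hAB (Subtype.ext h))) (extL_zero_off _ _)
        (extL_zero_off _ _)
  · intro M hM h
    refine eq_top_of_family 𝒟 hm h3 M hM (fun A hA f hf => ?_)
    rw [← extL_tl (hm A hA) hf]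
    exact h ⟨A, hA⟩ _

end DualL1
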