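import Pool.Agent.Helper60.L1Full.Stmts

/-! Module DPROD: products of duals are duals. -/

namespace DualL1

open MeasureTheory Cardinal Filter
open scoped ENNReal Classical

universe v w x y

theorem st_DPROD : ST_DPROD.{v, x, y, w} := by
  intro 𝕜 _ X X' _ _ _ _ h h'
  obtain ⟨Y, i1, i2, i3, ⟨e⟩⟩ := h
  obtain ⟨Y', j1, j2, j3, ⟨e'⟩⟩ := h'
  refine ⟨Y × Y', inferInstance, inferInstance, inferInstance, ⟨?_⟩⟩
  exact (e.prodCongr e').trans (ContinuousLinearMap.coprodEquivL 𝕜)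

end DualL1
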