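import Pool.Agent.Helper60.L1Full.Stmts2
import Pool.Agent.Helper2.DualL1.Decomp

/-! Module SUFF: sufficiency in ZFC. -/

namespace DualL1

open MeasureTheory Cardinal Filter
open scoped ENNReal Classical

universe u v w x

lemma Compl1.trans' {𝕜 : Type*} [RCLike 𝕜] {E F G : Type*} [NormedAddCommGroup E]
    [NormedSpace 𝕜 E] [NormedAddCommGroup F] [NormedSpace 𝕜 F] [NormedAddCommGroup G]
    [NormedSpace 𝕜 G] (h : Compl1 𝕜 E F) (h' : Compl1 𝕜 F G) : Compl1 𝕜 E G := by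
  obtain ⟨T, S, hT, hS, hST⟩ := h
  obtain ⟨T', S', hT', hS', hST'⟩ := h'
  refine ⟨T'.comp T, S.comp S', ?_, ?_, fun x => ?_⟩
  · refine (ContinuousLinearMap.opNorm_comp_le _ _).trans ?_
    exact mul_le_one₀ hT' (norm_nonneg _) hT
  · refine (ContinuousLinearMap.opNorm_comp_le _ _).trans ?_
    exact mul_le_one₀ hS (norm_nonneg _) hS'
  · simp only [ContinuousLinearMap.comp_apply, hST', hST]

lemma SUFF_iso {𝕜 : Type v} [RCLike 𝕜] {X : Type w} {X' : Type x} [NormedAddCommGroup X]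
    [NormedSpace 𝕜 X] [NormedAddCommGroup X'] [NormedSpace 𝕜 X'] (e : X ≃L[𝕜] X')
    (h : IsoToDual.{x, v, u} 𝕜 X') : IsoToDual.{w, v, u} 𝕜 X := by
  obtain ⟨Y, i1, i2, i3, ⟨e'⟩⟩ := h
  exact ⟨Y, i1, i2, i3, ⟨e.trans e'⟩⟩

lemma Thick.mono' {Ω : Type u} [MeasurableSpace Ω] {μ : Measure Ω} {κ κ' : Cardinal.{u}}
    {A : Set Ω} (h : Thick μ κ' A) (hκ : κ ≤ κ') : Thick μ κ A :=
  ⟨h.1, h.2.1, h.2.2.1, fun B hB hBm hB0 𝒢 h𝒢 hlt => h.2.2.2 B hB hBm hB0 𝒢 h𝒢 (hlt.trans_le hκ)⟩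

lemma Thick.subset' {Ω : Type u} [MeasurableSpace Ω] {μ : Measure Ω} {κ : Cardinal.{u}}
    {A B : Set Ω} (h : Thick μ κ A) (hBA : B ⊆ A) (hB : MeasurableSet B) (hB0 : 0 < μ B) :
    Thick μ κ B :=
  ⟨hB, hB0, measure_ne_top_of_subset hBA h.2.2.1,
    fun C hC hCm hC0 𝒢 h𝒢 hlt => h.2.2.2 C (hC.trans hBA) hCm hC0 𝒢 h𝒢 hlt⟩

/-- atoms are generated by the empty family -/
lemma SUFF_atom_gen {Ω : Type u} [MeasurableSpace Ω] {μ : Measure Ω} {A : Set Ω}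
    (hA : IsAtomOf μ A) : Generates μ ∅ A := by
  intro E hE hEm
  rcases hA.2.2 E hE hEm with h | h
  · exact ⟨∅, @MeasurableSet.empty _ (MeasurableSpace.generateFrom ∅), by simpa using h⟩
  · refine ⟨Set.univ, @MeasurableSet.univ _ (MeasurableSpace.generateFrom ∅), ?_⟩
    rw [Set.univ_inter]
    refine measure_mono_null ?_ h
    intro x hx
    rcases hx with ⟨h1, h2⟩ | ⟨h1, h2⟩
    · exact (h2 (hE h1)).elim
    · exact ⟨h1, h2⟩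

lemma SUFF_thick_not_atom {Ω : Type u} [MeasurableSpace Ω] {μ : Measure Ω} {A : Set Ω}
    {κ : Cardinal.{u}} (hκ : ℵ₀ ≤ κ) (h : Thick μ κ A) (hA : IsAtomOf μ A) : False := by
  refine h.2.2.2 A subset_rfl h.1 h.2.1 ∅ (by simp) ?_ (SUFF_atom_gen hA)
  rw [Cardinal.mk_eq_zero]
  exact aleph0_pos.trans_le hκ

/-- the atomic part -/
lemma SUFF_atomic (hS1 : ST_SUM1.{u, v, v, max u v}) (hS4 : ST_SUM4.{u, v, max u v})
    (hC0 : ST_C0.{u, v, v}) {𝕜 : Type v} [RCLike 𝕜] {J : Type u} (E : J → Type max u v)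
    [∀ j, NormedAddCommGroup (E j)] [∀ j, NormedSpace 𝕜 (E j)] [∀ j, CompleteSpace (E j)]
    (hE : ∀ j, Nonempty (𝕜 ≃ₗᵢ[𝕜] E j)) :
    IsoToDual.{max u v, v, max u v} 𝕜 (lp E 1) := by
  obtain ⟨Y, i1, i2, i3, hY⟩ := hC0 𝕜 J (fun _ => 𝕜)
  let φ : ∀ j, 𝕜 ≃ₗᵢ[𝕜] E j := fun j => Classical.choice (hE j)
  have h1 : IsL1Sum 𝕜 (fun _ : J => 𝕜) (lp E 1) := by
    obtain ⟨i, hi, hd⟩ := hS4 𝕜 J E
    refine ⟨fun j => (i j).comp (φ j).toLinearIsometry, fun S x => ?_, fun M hM h => ?_⟩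
    · have := hi S (fun j => φ j (x j))
      simpa using this
    · refine hd M hM (fun j y => ?_)
      have := h j ((φ j).symm y)
      simpa using this
  have h2 : IsL1Sum 𝕜 (fun _ : J => 𝕜) (Y →L[𝕜] 𝕜) := by
    obtain ⟨i, hi, hd⟩ := hY
    let ψ : 𝕜 ≃ₗᵢ[𝕜] (𝕜 →L[𝕜] 𝕜) := ContinuousLinearMap.toSpanSingletonLIE 𝕜 𝕜
    refine ⟨fun j => (i j).comp ψ.toLinearIsometry, fun S x => ?_, fun M hM h => ?_⟩
    · have := hi S (fun j => ψ (x j))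
      simpa using this
    · refine hd M hM (fun j y => ?_)
      have := h j (ψ.symm y)
      simpa using this
  obtain ⟨e1⟩ := hS1 𝕜 J (fun _ => 𝕜) (lp E 1) h1
  obtain ⟨e2⟩ := hS1 𝕜 J (fun _ => 𝕜) (Y →L[𝕜] 𝕜) h2
  exact ⟨Y, i1, i2, i3, ⟨e1.trans e2.symm⟩⟩

/-- the splitting of `L¹(μ)` in the part on the atoms and the rest -/
lemma SUFF_split (hS1 : ST_SUM1.{u, v, max u v, max u v}) (hS1' : ST_SUM1.{u, v, v, max u v})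
    (hS4 : ST_SUM4.{u, v, max u v}) (hS6 : ST_SUM6.{u, v, max u v})
    (hC0 : ST_C0.{u, v, v}) (hDP : ST_DPROD.{v, max u v, max u v, max u v})
    (hDEC : ST_DEC.{u, v}) {𝕜 : Type v} [RCLike 𝕜] {Ω : Type u} [MeasurableSpace Ω]
    (μ : Measure Ω) (𝒟 : Set (Set Ω)) (h𝒟 : IsHFam μ 𝒟)
    (h : IsoToDual.{max u v, v, max u v} 𝕜
      (lp (fun A : {A : 𝒟 // ¬ IsAtomOf μ A.1} => Lp 𝕜 1 (μ.restrict A.1.1)) 1)) :
    IsoToDual.{max u v, v, max u v} 𝕜 (Lp 𝕜 1 μ) := by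
  obtain ⟨e1⟩ := hS1 𝕜 𝒟 (fun A : 𝒟 => Lp 𝕜 1 (μ.restrict A.1)) (Lp 𝕜 1 μ) (hDEC 𝕜 μ 𝒟 h𝒟)
  obtain ⟨e2⟩ := hS6 𝕜 𝒟 (fun A => ¬ IsAtomOf μ A.1) (fun A : 𝒟 => Lp 𝕜 1 (μ.restrict A.1))
  refine SUFF_iso (e1.trans e2) (hDP 𝕜 _ _ h ?_)
  refine SUFF_atomic hS1' hS4 hC0
    (fun A : {A : 𝒟 // ¬ ¬ IsAtomOf μ A.1} => Lp 𝕜 1 (μ.restrict A.1.1)) (fun A => ?_)
  have hat : IsAtomOf μ A.1.1 := not_not.1 A.2
  have hfin : μ A.1.1 ≠ ∞ := by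
    rcases h𝒟.1 A.1.1 A.1.2 with h1 | ⟨κ, -, h1⟩
    · exact h1.2
    · exact h1.1.2.2.1
  have : IsFiniteMeasure (μ.restrict A.1.1) := ⟨by
    rw [Measure.restrict_apply_univ]; exact hfin.lt_top⟩
  exact piece_atom (μ.restrict A.1.1) 𝕜 (atom_restrict hat)

theorem st_SUFF (hS1 : ST_SUM1.{u, v, max u v, max u v}) (hS1' : ST_SUM1.{u, v, v, max u v})
    (hS4 : ST_SUM4.{u, v, max u v}) (hS5 : ST_SUM5.{u, u, v, max u v, max u v})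
    (hS6 : ST_SUM6.{u, v, max u v})
    (hC0 : ST_C0.{u, v, v}) (hDP : ST_DPROD.{v, max u v, max u v, max u v})
    (hDEC : ST_DEC.{u, v}) (hHOM : ST_HOM.{u}) (hCARD : ST_CARD.{u}) (hCARDM : ST_CARDM.{u})
    (hCKB : ST_CKB.{u, v}) (hCOIN : ST_COIN.{u}) (hGEN : ST_GEN.{u, v}) (hEMB : ST_EMB.{u, v})
    (hASS : ST_ASSIGN.{u}) (hPRE : ST_PREDUAL.{u, v}) : ST_SUFF.{u, v} := by
  intro 𝕜 _ Ω _ μ hcond
  obtain ⟨𝒟, h𝒟⟩ := hHOM μ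
  refine SUFF_split hS1 hS1' hS4 hS6 hC0 hDP hDEC μ 𝒟 h𝒟 ?_
  -- the types
  have hty : ∀ A : {A : 𝒟 // ¬ IsAtomOf μ A.1}, ∃ κ : Cardinal.{u}, ℵ₀ ≤ κ ∧ Hom μ κ A.1.1 := by
    intro A
    rcases h𝒟.1 A.1.1 A.1.2 with h | h
    · exact (A.2 h.1).elim
    · exact h
  choose κ hκ0 hκ using hty
  have hinf : ∀ A, Infinite (κ A).out := fun A => by
    rw [Cardinal.infinite_iff, Cardinal.mk_out]; exact hκ0 A
  -- compact sets and measures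
  have hcomp : ∀ A, CompactSpace (Set.univ : Set ((κ A).out → Bool)) := fun A =>
    isCompact_iff_compactSpace.1 isCompact_univ
  have hcar : ∀ (A) (ν : Measure ((κ A).out → Bool)), CarriedBy Set.univ ν := by
    intro A ν C _ hC
    rw [Set.disjoint_univ] at hC
    rw [hC, measure_empty]
  choose M hM0 hM1 hM2 hM3 using fun A => hCKB 𝕜 (κ A).out Set.univ (coinPi (κ A).out)
    inferInstance (hcar A _)
  refine hPRE 𝕜 _ (fun A => C((Set.univ : Set ((κ A).out → Bool)), 𝕜)) (fun A => M A)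
    (fun A m => Lp 𝕜 1 m.1) _ hM3 ?_ ?_
  · -- `L¹(μ)` into the dual
    refine hS5 𝕜 _ _ _ _ (fun A => ⟨A, (0, ⟨coinPi (κ A).out, hM0 A⟩)⟩) ?_ (fun A => ?_)
    · intro A B hAB
      exact (Sigma.mk.inj_iff.1 hAB).1
    · obtain ⟨hth, 𝒢, h𝒢m, h𝒢c, h𝒢g⟩ := hκ A
      obtain ⟨ν, hν, hc⟩ := hGEN 𝕜 μ A.1.1 𝒢 (κ A).out hth.1 hth.2.1 hth.2.2.1 h𝒢m h𝒢g
        (@Infinite.nonempty _ (hinf A)) (by rw [Cardinal.mk_out]; exact h𝒢c)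
      have h2 := hEMB 𝕜 (coinPi (κ A).out) #(κ A).out Set.univ
        (by rw [Cardinal.mk_out]; exact hκ0 A) (hCOIN _ (hinf A)) (κ A).out le_rfl ν hν
      rw [Measure.restrict_univ] at h2
      exact hc.trans' h2
  · -- the dual into `L¹(μ)`
    obtain ⟨f, hf, hfκ⟩ := hASS _ κ (fun A => ℕ × M A) hκ0 (by
      intro A
      have h1 : #(M A) ≤ 2 ^ κ A := by
        have h2 : #(M A) ≤ #{ν : Measure ((κ A).out → Bool) // IsProbabilityMeasure ν} :=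
          Cardinal.mk_le_of_injective (f := fun m : M A => ⟨m.1, (hM1 A m.1 m.2).1⟩)
            (fun a b hab => Subtype.ext (congrArg (fun x => x.1) hab))
        refine h2.trans ((hCARDM _ (hinf A)).trans ?_)
        rw [Cardinal.mk_out]
      have h3 : ℵ₀ ≤ 2 ^ κ A := (hκ0 A).trans (Cardinal.cantor _).le
      rw [Cardinal.mk_prod, Cardinal.mk_nat, Cardinal.lift_aleph0, Cardinal.lift_uzero]
      exact Cardinal.mul_le_of_le h3 h3 h1) (by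
      intro A
      refine (hCARD μ 𝒟 h𝒟 (κ A) (hκ0 A) (hcond _ (hκ0 A)) ⟨A.1.1, (hκ A).1⟩).trans ?_
      have key : ∀ B : {B : Set Ω // B ∈ 𝒟 ∧ Thick μ (κ A) B}, ¬ IsAtomOf μ B.1 := fun B h =>
        SUFF_thick_not_atom (hκ0 A) B.2.2 h
      refine Cardinal.mk_le_of_injective
        (f := fun B : {B : Set Ω // B ∈ 𝒟 ∧ Thick μ (κ A) B} =>
          (⟨⟨⟨B.1, B.2.1⟩, key B⟩, ?_⟩ :
            {i : {A : 𝒟 // ¬ IsAtomOf μ A.1} // κ A ≤ κ i})) ?_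
      · by_contra hlt
        obtain ⟨hth, 𝒢, h𝒢m, h𝒢c, h𝒢g⟩ := hκ ⟨⟨B.1, B.2.1⟩, key B⟩
        exact B.2.2.2.2.2 B.1 subset_rfl hth.1 hth.2.1 𝒢 h𝒢m
          (h𝒢c.trans_lt (not_le.1 hlt)) h𝒢g
      · intro B C hBC
        have h1 := congrArg (fun x => x.1.1.1) hBC
        exact Subtype.ext h1)
    refine hS5 𝕜 _ _ _ _ f hf (fun p => ?_)
    refine hEMB 𝕜 μ (κ (f p)) (f p).1.1 (hκ0 _) (hκ (f p)).1 (κ p.1).out ?_ p.2.2.1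
      (hM1 p.1 _ p.2.2.2).1
    rw [Cardinal.mk_out]
    exact hfκ p

end DualL1
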