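import Pool.Agent.Helper60.L1Full.Stmts3
import Pool.Agent.Helper60.L1F.SUFF
import Pool.Agent.Helper22.L1F.CARD
import Pool.Agent.Helper96.L1F.COIN
import Pool.Agent.Helper96.L1F.FINGEN

/-! Module EX: a measure satisfying `Cond μ κ` for all `κ ≠ ℵ₁` but not for `κ = ℵ₁`. -/

namespace DualL1

open MeasureTheory Cardinal Filter
open scoped ENNReal Classical

universe u

section sums

variable {T : Type u} (I : T → Type u)

/-- the embedding of a fibre -/
abbrev exMk (t : T) : (I t → Bool) → (Σ t, (I t → Bool)) := fun x => ⟨t, x⟩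

lemma EX_inj (t : T) : Function.Injective (exMk I t) := by
  intro x y h
  simpa [exMk] using h

/-- the disjoint sum of coin measures -/
noncomputable def exMu : Measure (Σ t, (I t → Bool)) :=
  Measure.sum (fun t => (coinPi (I t)).map (exMk I t))

/-- the fibres -/
def exFib (t : T) : Set (Σ t, (I t → Bool)) := Set.range (exMk I t)

variable {I}

lemma EX_meas_iff (E : Set (Σ t, (I t → Bool))) :
    MeasurableSet E ↔ ∀ t, MeasurableSet (exMk I t ⁻¹' E) := by
  rw [MeasurableSpace.measurableSet_iInf]
  rfl

lemma EX_measurable_mk (t : T) :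
    Measurable (exMk I t) := fun E hE =>
  (EX_meas_iff E).1 hE t

lemma EX_apply {E : Set (Σ t, (I t → Bool))} (hE : MeasurableSet E) :
    exMu I E = ∑' t, coinPi (I t) (exMk I t ⁻¹' E) := by
  rw [exMu, Measure.sum_apply _ hE]
  exact tsum_congr (fun t => Measure.map_apply (EX_measurable_mk t) hE)

lemma EX_image_meas (t : T) {H : Set (I t → Bool)} (hH : MeasurableSet H) :
    MeasurableSet (exMk I t '' H) := by
  rw [EX_meas_iff]
  intro s
  by_cases hst : s = t
  · subst hst
    rw [Set.preimage_image_eq _ (EX_inj _ _)]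
    exact hH
  · have : exMk I s ⁻¹' (exMk I t '' H) = ∅ := by
      ext x
      simp only [Set.mem_preimage, Set.mem_image, Set.mem_empty_iff_false, iff_false]
      rintro ⟨y, -, hy⟩
      exact hst (congrArg (fun x => x.1) hy).symm
    rw [this]
    exact MeasurableSet.empty

lemma EX_fib_meas (t : T) : MeasurableSet (exFib I t) := by
  rw [exFib, ← Set.image_univ]
  exact EX_image_meas t MeasurableSet.univ

lemma EX_apply_fib (t : T) {E : Set (Σ t, (I t → Bool))} (hE : MeasurableSet E)
    (hEt : E ⊆ exFib I t) : exMu I E = coinPi (I t) (exMk I t ⁻¹' E) := by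
  rw [EX_apply hE]
  refine tsum_eq_single t (fun s hs => ?_)
  have : exMk I s ⁻¹' E = ∅ := by
    ext x
    simp only [Set.mem_preimage, Set.mem_empty_iff_false, iff_false]
    intro hx
    obtain ⟨y, hy⟩ := hEt hx
    exact hs (congrArg (fun x => x.1) hy).symm
  rw [this, measure_empty]

/-- the fibre is thick -/
lemma EX_thick (t : T) (hI : Infinite (I t)) : Thick (exMu I) #(I t) (exFib I t) := by
  have hc := st_COIN.{u} st_FINGEN (I t) hI
  have hfib : exMu I (exFib I t) = 1 := by
    rw [EX_apply_fib t (EX_fib_meas t) subset_rfl, exFib, Set.preimage_range, measure_univ]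
  refine ⟨EX_fib_meas t, by rw [hfib]; exact one_pos, by rw [hfib]; exact ENNReal.one_ne_top,
    fun B hB hBm hB0 𝒢 h𝒢 hlt hgen => ?_⟩
  rw [EX_apply_fib t hBm hB] at hB0
  refine hc.2.2.2 (exMk I t ⁻¹' B) (Set.subset_univ _) (EX_measurable_mk t hBm) hB0
    ((fun G => exMk I t ⁻¹' G) '' 𝒢) ?_ (Cardinal.mk_image_le.trans_lt hlt) ?_
  · rintro _ ⟨G, hG, rfl⟩
    exact EX_measurable_mk t (h𝒢 G hG)
  · intro E hE hEm
    have hsub : exMk I t '' E ⊆ B := by
      rintro _ ⟨x, hx, rfl⟩
      exact hE hx
    obtain ⟨G, hG, h0⟩ := hgen (exMk I t '' E) hsub (EX_image_meas t hEm)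
    refine ⟨exMk I t ⁻¹' G, ?_, ?_⟩
    · have h1 := MeasurableSpace.comap_generateFrom (s := 𝒢) (f := (exMk I t))
      rw [← h1]
      exact ⟨G, hG, rfl⟩
    · have hGm : MeasurableSet G := MeasurableSpace.generateFrom_le h𝒢 _ hG
      have h2 : symmDiff (exMk I t '' E) (G ∩ B) ⊆ exFib I t := by
        rintro x (⟨h1, -⟩ | ⟨h1, -⟩)
        · obtain ⟨y, -, rfl⟩ := h1
          exact ⟨y, rfl⟩
        · exact hB h1.2
      rw [EX_apply_fib t ((EX_image_meas t hEm).symmDiff (hGm.inter hBm)) h2] at h0
      rw [← h0]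
      congr 1
      rw [Set.preimage_symmDiff, Set.preimage_image_eq _ (EX_inj _ _), Set.preimage_inter]

/-- parts of the fibre are not thicker -/
lemma EX_not_thick (t : T) (hI : Infinite (I t)) {κ : Cardinal.{u}} (hκ : #(I t) < κ)
    {A : Set (Σ t, (I t → Bool))} (hA : Thick (exMu I) κ A) : exMu I (A ∩ exFib I t) = 0 := by
  by_contra hne
  set B := A ∩ exFib I t with hB
  have hBm : MeasurableSet B := hA.1.inter (EX_fib_meas t)
  set 𝒢 : Set (Set (Σ t, (I t → Bool))) :=
    Set.range (fun i : I t => exMk I t '' {x : I t → Bool | x i = true}) with h𝒢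
  have hcyl : ∀ i : I t, MeasurableSet {x : I t → Bool | x i = true} := fun i =>
    measurable_pi_apply (X := fun _ : I t => Bool) i (MeasurableSet.of_discrete (s := {true}))
  refine hA.2.2.2 B Set.inter_subset_left hBm (pos_iff_ne_zero.2 hne) 𝒢 ?_
    (Cardinal.mk_range_le.trans_lt hκ) ?_
  · rintro _ ⟨i, rfl⟩
    exact EX_image_meas t (hcyl i)
  · intro E hE hEm
    have hle : (MeasurableSpace.pi : MeasurableSpace (I t → Bool)) ≤
        MeasurableSpace.comap (exMk I t) (MeasurableSpace.generateFrom 𝒢) := by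
      have h1 : @Measurable _ _ (MeasurableSpace.comap (exMk I t)
          (MeasurableSpace.generateFrom 𝒢)) MeasurableSpace.pi (id : (I t → Bool) → (I t → Bool)) := by
        refine @measurable_pi_lambda _ _ _ (MeasurableSpace.comap (exMk I t)
          (MeasurableSpace.generateFrom 𝒢)) _ _ (fun i => ?_)
        refine @measurable_to_bool _ (MeasurableSpace.comap (exMk I t)
          (MeasurableSpace.generateFrom 𝒢)) _ ?_
        refine ⟨exMk I t '' {x : I t → Bool | x i = true},
          MeasurableSpace.measurableSet_generateFrom ⟨i, rfl⟩, ?_⟩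
        rw [Set.preimage_image_eq _ (EX_inj _ _)]
        rfl
      intro H hH
      exact h1 hH
    obtain ⟨G, hG, hGE⟩ := hle _ (EX_measurable_mk t hEm)
    refine ⟨G, hG, ?_⟩
    have h2 : symmDiff E (G ∩ B) = ∅ := by
      ext x
      simp only [Set.mem_symmDiff, Set.mem_inter_iff, Set.mem_empty_iff_false, iff_false]
      rintro (⟨h1, h3⟩ | ⟨⟨h1, h4⟩, h3⟩)
      · apply h3
        refine ⟨?_, hE h1⟩
        obtain ⟨y, rfl⟩ := (hE h1).2
        have : y ∈ exMk I t ⁻¹' G := by rw [hGE]; exact h1
        exact this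
      · apply h3
        obtain ⟨y, rfl⟩ := h4.2
        have : y ∈ exMk I t ⁻¹' E := by rw [← hGE]; exact h1
        exact this
    rw [h2, measure_empty]

lemma EX_sum_fib {A : Set (Σ t, (I t → Bool))} (hA : MeasurableSet A) :
    exMu I A = ∑' t, exMu I (A ∩ exFib I t) := by
  rw [EX_apply hA]
  refine tsum_congr (fun t => ?_)
  rw [EX_apply_fib t (hA.inter (EX_fib_meas t)) Set.inter_subset_right]
  congr 1
  rw [Set.preimage_inter, exFib, Set.preimage_range, Set.inter_univ]

end sums

/-- the index types of the example -/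
def exI : Option ℝ → Type := fun t => Option.elim t W1.{0} (fun _ => ℕ)

lemma EX_card_none : #(exI none) = ℵ₁ := by
  show #W1.{0} = ℵ₁
  simp [W1]

lemma EX_card_some (r : ℝ) : #(exI (some r)) = ℵ₀ := by
  show #ℕ = ℵ₀
  simp

lemma EX_inf (t : Option ℝ) : Infinite (exI t) := by
  rw [Cardinal.infinite_iff]
  cases t with
  | none => rw [EX_card_none]; exact aleph0_lt_aleph_one.le
  | some r => rw [EX_card_some]

theorem st_EX : ST_EX := by
  refine ⟨Σ t, (exI t → Bool), inferInstance, exMu exI, ?_, ?_⟩
  · intro κ hκ hκ1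
    rcases eq_or_lt_of_le hκ with h0 | h0
    · -- `κ = ℵ₀`
      intro _
      refine ⟨Set.range (fun r : ℝ => exFib exI (some r)), ?_, ?_, ?_⟩
      · have hinj : Function.Injective (fun r : ℝ => exFib exI (some r)) := by
          intro r s hrs
          have h1 : (⟨some r, fun _ => false⟩ : Σ t, (exI t → Bool)) ∈ exFib exI (some s) := by
            have : (⟨some r, fun _ => false⟩ : Σ t, (exI t → Bool)) ∈ exFib exI (some r) :=
              ⟨fun _ => false, rfl⟩
            have h2 : exFib exI (some r) = exFib exI (some s) := hrs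
            rwa [h2] at this
          obtain ⟨y, hy⟩ := h1
          have := congrArg (fun x => x.1) hy
          exact (Option.some_injective _ this).symm
        rw [Cardinal.mk_range_eq _ hinj, ← h0, Cardinal.two_power_aleph0, Cardinal.mk_real]
      · rintro _ ⟨r, rfl⟩ _ ⟨s, rfl⟩ hrs
        have : exFib exI (some r) ∩ exFib exI (some s) = ∅ := by
          ext x
          simp only [Set.mem_inter_iff, Set.mem_empty_iff_false, iff_false]
          rintro ⟨⟨y, rfl⟩, ⟨z, hz⟩⟩
          apply hrs
          have h1 : some s = some r := congrArg (fun x => x.1) hz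
          rw [Option.some_injective _ h1]
        show exMu exI (exFib exI (some r) ∩ exFib exI (some s)) = 0
        rw [this, measure_empty]
      · rintro _ ⟨r, rfl⟩
        have := EX_thick (I := exI) (some r) (EX_inf _)
        rw [EX_card_some] at this
        rw [← h0]
        exact this
    · -- `κ > ℵ₁`: there are no thick sets
      rintro ⟨A, hA⟩
      exfalso
      have hlt : ∀ t, #(exI t) < κ := by
        intro t
        have h1 : (ℵ₁ : Cardinal.{0}) < κ := by
          refine lt_of_le_of_ne ?_ (Ne.symm hκ1)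
          rw [← succ_aleph0]
          exact Order.succ_le_of_lt h0
        cases t with
        | none => rw [EX_card_none]; exact h1
        | some r => rw [EX_card_some]; exact h0
      refine hA.2.1.ne' ?_
      rw [EX_sum_fib hA.1]
      simp only [EX_not_thick (I := exI) _ (EX_inf _) (hlt _) hA, tsum_zero]
  · -- `κ = ℵ₁`
    intro hcond
    have hnone : Thick (exMu exI) ℵ₁ (exFib exI none) := by
      have := EX_thick (I := exI) none (EX_inf _)
      rwa [EX_card_none] at this
    obtain ⟨𝒞, hcard, hdis, hC⟩ := hcond ⟨_, hnone⟩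
    have hpos : ∀ C ∈ 𝒞, 0 < ((exMu exI).restrict (exFib exI none)) C := by
      intro C hCC
      rw [Measure.restrict_apply (hC C hCC).1, pos_iff_ne_zero]
      intro h0
      refine (hC C hCC).2.1.ne' ?_
      rw [EX_sum_fib (hC C hCC).1, ENNReal.tsum_eq_zero]
      intro t
      cases t with
      | none => exact h0
      | some r =>
        refine EX_not_thick (I := exI) _ (EX_inf _) ?_ (hC C hCC)
        rw [EX_card_some]
        exact aleph0_lt_aleph_one
    have hfin : IsFiniteMeasure ((exMu exI).restrict (exFib exI none)) := ⟨by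
      rw [Measure.restrict_apply_univ]
      exact lt_top_iff_ne_top.2 hnone.2.2.1⟩
    have h1 := Measure.countable_meas_pos_of_disjoint_iUnion₀
      (μ := (exMu exI).restrict (exFib exI none))
      (As := fun C : 𝒞 => C.1) (fun C => (hC C.1 C.2).1.nullMeasurableSet) (by
        intro C C' hne
        change ((exMu exI).restrict (exFib exI none)) (C.1 ∩ C'.1) = 0
        have h2 : exMu exI (C.1 ∩ C'.1) = 0 := hdis C.2 C'.2 (fun h => hne (Subtype.ext h))
        exact le_antisymm ((Measure.restrict_apply_le _ _).trans h2.le) (zero_le))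
    have h2 : (Set.univ : Set 𝒞).Countable := by
      refine h1.mono (fun C _ => ?_)
      exact hpos C.1 C.2
    have h3 : #𝒞 ≤ ℵ₀ := by
      rw [← Cardinal.mk_univ]
      exact h2.le_aleph0
    have h4 : ℵ₀ < 2 ^ (ℵ₁ : Cardinal.{0}) :=
      aleph0_lt_aleph_one.trans (Cardinal.cantor _)
    exact absurd (hcard.trans h3) (not_le.2 h4)

end DualL1
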