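import Pool.Agent.Helper60.L1F.SUFF
import Pool.Agent.Helper2.DualL1.Classification

/-! Module NECO: necessity of `Cond μ ℵ₀`. -/

namespace DualL1

open MeasureTheory Cardinal Filter
open scoped ENNReal Classical

universe u v w

theorem st_NECO (hFG : ST_FINGEN.{u}) : ST_NECO.{u, v, w} := by
  intro 𝕜 _ Ω _ μ Y _ _ he
  obtain ⟨e⟩ := he
  rintro ⟨A, hA⟩
  have hnoatom : ∀ a ⊆ A, ¬ IsAtomOf μ a := by
    intro a ha hat
    exact SUFF_thick_not_atom le_rfl (hA.subset' ha hat.1 hat.2.1) hat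
  rcases necessity e with h | ⟨𝒞, hcard, hdis, hC⟩
  · obtain ⟨a, ha, hat⟩ := h A hA.1 hA.2.1 hA.2.2.1
    exact (hnoatom a ha hat).elim
  · refine ⟨𝒞, ?_, hdis, fun C hCC => ?_⟩
    · rw [Cardinal.two_power_aleph0]
      exact hcard
    · obtain ⟨h1, h2, h3, h4⟩ := hC C hCC
      refine ⟨h1, h2, h3, fun B hB hBm hB0 𝒢 h𝒢 hlt hgen => ?_⟩
      obtain ⟨a, ha, hat⟩ := hFG μ B 𝒢 hBm hB0 (measure_ne_top_of_subset hB h3) h𝒢
        (Cardinal.lt_aleph0_iff_set_finite.1 hlt) hgen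
      exact h4 a (ha.trans hB) hat

end DualL1
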