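import Pool.Agent.Helper60.L1Full.Stmts

/-! Module PREDUAL: the abstract predual argument. -/

namespace DualL1

open MeasureTheory Cardinal Filter
open scoped ENNReal Classical

universe u v

/-- reindexing -/
def PREDUAL_e1 (J : Type u) (Q : J → Type u) :
    (Σ j : J, ℕ × Q j) ≃ (Σ p : J × ℕ, Q p.1) where
  toFun p := ⟨(p.1, p.2.1), p.2.2⟩
  invFun p := ⟨p.1.1, (p.1.2, p.2)⟩
  left_inv _ := rfl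
  right_inv _ := rfl

/-- reindexing by `ℕ ≃ ℕ × ℕ` -/
def PREDUAL_e2 (J : Type u) (Q : J → Type u) :
    (Σ j : J, ℕ × Q j) ≃ (Σ _ : ℕ, Σ j : J, ℕ × Q j) where
  toFun p := ⟨(Nat.unpair p.2.1).1, ⟨p.1, ((Nat.unpair p.2.1).2, p.2.2)⟩⟩
  invFun p := ⟨p.2.1, (Nat.pair p.1 p.2.2.1, p.2.2.2)⟩
  left_inv p := by
    obtain ⟨j, n, q⟩ := p
    simp
  right_inv p := by
    obtain ⟨m, j, n, q⟩ := p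
    simp

theorem st_PREDUAL (hS1 : ST_SUM1.{u, v, max u v, max u v})
    (hS2 : ST_SUM2.{u, u, v, max u v, max u v, max u v})
    (hS2' : ST_SUM2.{0, u, v, max u v, max u v, max u v})
    (hS3 : ST_SUM3.{u, u, v, max u v, max u v})
    (hS4 : ST_SUM4.{u, v, max u v}) (hS4' : ST_SUM4.{0, v, max u v})
    (hC0 : ST_C0.{u, v, max u v}) (hPEL : ST_PEL.{v, max u v, max u v}) :
    ST_PREDUAL.{u, v} := by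
  intro 𝕜 _ J Y _ _ _ Q F _ _ _ X _ _ _ hF hXZ hZX
  obtain ⟨Y₀, i1, i2, i3, hY₀⟩ := hC0 𝕜 (J × ℕ) (fun p : J × ℕ => Y p.1)
  have h1 : IsL1Sum 𝕜 (fun p : (Σ p : J × ℕ, Q p.1) => F p.1.1 p.2) (Y₀ →L[𝕜] 𝕜) :=
    hS2 𝕜 (J × ℕ) (fun p : J × ℕ => (Y p.1 →L[𝕜] 𝕜)) (Y₀ →L[𝕜] 𝕜) (fun p => Q p.1)
      (fun p q => F p.1 q) hY₀ (fun p => hF p.1)
  have h2 : IsL1Sum 𝕜 (fun p : (Σ j : J, ℕ × Q j) => F p.1 p.2.2) (Y₀ →L[𝕜] 𝕜) :=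
    hS3 𝕜 (Σ p : J × ℕ, Q p.1) (Σ j : J, ℕ × Q j) (PREDUAL_e1 J Q)
      (fun p : (Σ p : J × ℕ, Q p.1) => F p.1.1 p.2) (Y₀ →L[𝕜] 𝕜) h1
  obtain ⟨e1⟩ := hS1 𝕜 (Σ j : J, ℕ × Q j) (fun p => F p.1 p.2.2) (Y₀ →L[𝕜] 𝕜) h2
  have h3 : IsL1Sum 𝕜 (fun p : (Σ j : J, ℕ × Q j) => F p.1 p.2.2)
      (lp (fun p : (Σ j : J, ℕ × Q j) => F p.1 p.2.2) 1) :=
    hS4 𝕜 (Σ j : J, ℕ × Q j) (fun p => F p.1 p.2.2)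
  have h4 : IsL1Sum 𝕜 (fun _ : ℕ => lp (fun p : (Σ j : J, ℕ × Q j) => F p.1 p.2.2) 1)
      (lp (fun _ : ℕ => lp (fun p : (Σ j : J, ℕ × Q j) => F p.1 p.2.2) 1) 1) :=
    hS4' 𝕜 ℕ (fun _ => lp (fun p : (Σ j : J, ℕ × Q j) => F p.1 p.2.2) 1)
  have h5 : IsL1Sum 𝕜 (fun p : (Σ _ : ℕ, Σ j : J, ℕ × Q j) => F p.2.1 p.2.2.2)
      (lp (fun _ : ℕ => lp (fun p : (Σ j : J, ℕ × Q j) => F p.1 p.2.2) 1) 1) :=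
    hS2' 𝕜 ℕ (fun _ => lp (fun p : (Σ j : J, ℕ × Q j) => F p.1 p.2.2) 1) _
      (fun _ => Σ j : J, ℕ × Q j) (fun _ p => F p.1 p.2.2) h4 (fun _ => h3)
  have h6 : IsL1Sum 𝕜 (fun p : (Σ j : J, ℕ × Q j) => F p.1 p.2.2)
      (lp (fun _ : ℕ => lp (fun p : (Σ j : J, ℕ × Q j) => F p.1 p.2.2) 1) 1) :=
    hS3 𝕜 (Σ _ : ℕ, Σ j : J, ℕ × Q j) (Σ j : J, ℕ × Q j) (PREDUAL_e2 J Q)
      (fun p : (Σ _ : ℕ, Σ j : J, ℕ × Q j) => F p.2.1 p.2.2.2) _ h5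
  obtain ⟨e2⟩ := hS1 𝕜 (Σ j : J, ℕ × Q j) (fun p => F p.1 p.2.2) _ h6
  obtain ⟨e3⟩ := hPEL 𝕜 X (lp (fun p : (Σ j : J, ℕ × Q j) => F p.1 p.2.2) 1) hXZ hZX ⟨e2.symm⟩
  exact ⟨Y₀, i1, i2, i3, ⟨e3.trans e1.symm⟩⟩

end DualL1
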