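import Pool.Agent.Helper60.L1Full.Stmts
import Pool.Agent.Helper2.DualL1.Gen

/-! Module PULL: composition with a measurable map embeds `L¹` of the image as a complemented
subspace. -/

namespace DualL1

open MeasureTheory Cardinal Filter
open scoped ENNReal Classical

universe u v

section
variable {𝕜 : Type v} [RCLike 𝕜] {Ω Ω' : Type u} [MeasurableSpace Ω] [mΩ' : MeasurableSpace Ω']
  {μ : Measure Ω} {ν : Measure Ω'} {c : ℝ≥0∞} {φ : Ω → Ω'}

lemma PULL_int (hc0 : c ≠ 0) (hc : c ≠ ∞) (hφ : Measurable φ) (hmap : μ.map φ = c • ν)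
    {g : Ω' → 𝕜} (hg : StronglyMeasurable g) :
    Integrable (fun x => g (φ x)) μ ↔ Integrable g ν := by
  have h1 := integrable_map_measure (μ := μ) (f := φ) (g := g) hg.aestronglyMeasurable
    hφ.aemeasurable
  rw [hmap, integrable_smul_measure hc0 hc] at h1
  exact h1.symm

lemma PULL_norm (hφ : Measurable φ) (hmap : μ.map φ = c • ν)
    {g : Ω' → 𝕜} (hg : StronglyMeasurable g) :
    ∫ x, ‖g (φ x)‖ ∂μ = c.toReal * ∫ y, ‖g y‖ ∂ν := by
  have h1 := integral_map (μ := μ) (φ := φ) hφ.aemeasurable (f := fun y => ‖g y‖)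
    hg.norm.aestronglyMeasurable
  rw [hmap, integral_smul_measure, smul_eq_mul] at h1
  exact h1.symm

lemma PULL_ae (hc0 : c ≠ 0) (hφ : Measurable φ) (hmap : μ.map φ = c • ν)
    {g h : Ω' → 𝕜} (hg : StronglyMeasurable g) (hh : StronglyMeasurable h) :
    (∀ᵐ x ∂μ, g (φ x) = h (φ x)) ↔ g =ᵐ[ν] h := by
  have hm : MeasurableSet {y | g y = h y} := hg.measurableSet_eq_fun hh
  have h1 := ae_map_iff (μ := μ) (f := φ) hφ.aemeasurable (p := fun y => g y = h y) hm
  rw [hmap, Measure.ae_ennreal_smul_measure_iff hc0] at h1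
  exact h1.symm

end

theorem st_PULL : ST_PULL.{u, v} := by
  intro 𝕜 _ Ω Ω' _ mΩ' μ ν c φ hμ hc0 hc hφ hmap
  have hc' : c.toReal ≠ 0 := (ENNReal.toReal_pos hc0 hc).ne'
  have hcpos : 0 < c.toReal := ENNReal.toReal_pos hc0 hc
  set k : 𝕜 := ((c.toReal : ℝ) : 𝕜) with hk
  have hk0 : k ≠ 0 := by rw [hk]; exact_mod_cast hc'
  have hknorm : ‖k‖ = c.toReal := by rw [hk, RCLike.norm_ofReal, abs_of_pos hcpos]
  -- the embedding
  have hgm : ∀ g : Lp 𝕜 1 ν, StronglyMeasurable (g : Ω' → 𝕜) := fun g => Lp.stronglyMeasurable g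
  have hgi : ∀ g : Lp 𝕜 1 ν, Integrable (fun x => (g : Ω' → 𝕜) (φ x)) μ := fun g =>
    (PULL_int hc0 hc hφ hmap (hgm g)).2 (L1.integrable_coeFn g)
  have hae : ∀ {g h : Ω' → 𝕜}, StronglyMeasurable g → StronglyMeasurable h → g =ᵐ[ν] h →
      ∀ᵐ x ∂μ, g (φ x) = h (φ x) := fun hg hh h => (PULL_ae hc0 hφ hmap hg hh).2 h
  let T₀ : Lp 𝕜 1 ν →ₗ[𝕜] Lp 𝕜 1 μ :=
    { toFun := fun g => tl μ (fun x => k⁻¹ * (g : Ω' → 𝕜) (φ x))
      map_add' := fun g h => by
        rw [← tl_add' ((hgi g).const_mul _) ((hgi h).const_mul _)]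
        refine tl_congr ?_
        filter_upwards [hae (hgm (g + h)) ((hgm g).add (hgm h)) (Lp.coeFn_add g h)] with x hx
        rw [hx, Pi.add_apply, mul_add]
      map_smul' := fun a g => by
        rw [RingHom.id_apply, ← tl_smul a ((hgi g).const_mul _)]
        refine tl_congr ?_
        filter_upwards [hae (hgm (a • g)) ((hgm g).const_smul a) (Lp.coeFn_smul a g)] with x hx
        rw [hx, Pi.smul_apply, smul_eq_mul]
        ring }
  have hT₀ : ∀ g, ‖T₀ g‖ ≤ 1 * ‖g‖ := by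
    intro g
    show ‖tl μ (fun x => k⁻¹ * (g : Ω' → 𝕜) (φ x))‖ ≤ 1 * ‖g‖
    rw [norm_tl ((hgi g).const_mul _)]
    simp only [norm_mul, norm_inv, hknorm]
    rw [integral_const_mul, PULL_norm hφ hmap (hgm g), L1.norm_eq_integral_norm, ← mul_assoc,
      inv_mul_cancel₀ hc']
  -- the projection
  have hcomap : MeasurableSpace.comap φ mΩ' ≤ (inferInstance : MeasurableSpace Ω) := hφ.comap_le
  have hfac : ∀ f : Ω → 𝕜, ∃ h : Ω' → 𝕜, StronglyMeasurable h ∧
      μ[f | MeasurableSpace.comap φ mΩ'] = h ∘ φ := fun f =>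
    (stronglyMeasurable_condExp (m := MeasurableSpace.comap φ mΩ')).exists_eq_measurable_comp
  choose H hHm hH using hfac
  have hHint : ∀ f : Ω → 𝕜, Integrable (H f) ν := by
    intro f
    rw [← PULL_int hc0 hc hφ hmap (hHm f)]
    have h1 : Integrable (μ[f | MeasurableSpace.comap φ mΩ']) μ := integrable_condExp
    rw [hH f] at h1
    exact h1
  have hHae : ∀ {f : Ω → 𝕜} {h : Ω' → 𝕜}, StronglyMeasurable h →
      (∀ᵐ x ∂μ, (μ[f | MeasurableSpace.comap φ mΩ']) x = h (φ x)) → H f =ᵐ[ν] h := by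
    intro f h hh hae'
    refine (PULL_ae hc0 hφ hmap (hHm f) hh).1 ?_
    filter_upwards [hae'] with x hx
    rw [← hx, hH f]; rfl
  have hHx : ∀ (f : Ω → 𝕜) (x : Ω), (μ[f | MeasurableSpace.comap φ mΩ']) x = H f (φ x) := by
    intro f x; rw [hH f]; rfl
  let S₀ : Lp 𝕜 1 μ →ₗ[𝕜] Lp 𝕜 1 ν :=
    { toFun := fun f => tl ν (fun y => k * H (f : Ω → 𝕜) y)
      map_add' := fun f g => by
        rw [← tl_add' ((hHint _).const_mul _) ((hHint _).const_mul _)]
        refine tl_congr ?_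
        have h1 : H ((f + g : Lp 𝕜 1 μ) : Ω → 𝕜) =ᵐ[ν] fun y => H (f : Ω → 𝕜) y + H (g : Ω → 𝕜) y := by
          refine hHae ((hHm _).add (hHm _)) ?_
          have h2 := condExp_congr_ae (m := MeasurableSpace.comap φ mΩ') (Lp.coeFn_add f g)
          have h3 := condExp_add (L1.integrable_coeFn f) (L1.integrable_coeFn g)
            (MeasurableSpace.comap φ mΩ')
          filter_upwards [h2, h3] with x hx2 hx3
          rw [hx2, hx3, Pi.add_apply, hHx, hHx]
        filter_upwards [h1] with y hy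
        rw [hy, mul_add]
      map_smul' := fun a f => by
        rw [RingHom.id_apply, ← tl_smul a ((hHint _).const_mul _)]
        refine tl_congr ?_
        have h1 : H ((a • f : Lp 𝕜 1 μ) : Ω → 𝕜) =ᵐ[ν] fun y => a * H (f : Ω → 𝕜) y := by
          refine hHae ((hHm _).const_mul a) ?_
          have h2 := condExp_congr_ae (m := MeasurableSpace.comap φ mΩ') (Lp.coeFn_smul a f)
          have h3 := condExp_smul (μ := μ) a (f : Ω → 𝕜) (MeasurableSpace.comap φ mΩ')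
          filter_upwards [h2, h3] with x hx2 hx3
          rw [hx2, hx3, Pi.smul_apply, hHx, smul_eq_mul]
        filter_upwards [h1] with y hy
        rw [hy]
        ring }
  have hS₀ : ∀ f, ‖S₀ f‖ ≤ 1 * ‖f‖ := by
    intro f
    show ‖tl ν (fun y => k * H (f : Ω → 𝕜) y)‖ ≤ 1 * ‖f‖
    rw [norm_tl ((hHint _).const_mul _)]
    simp only [norm_mul, hknorm]
    rw [integral_const_mul, ← PULL_norm hφ hmap (hHm _), L1.norm_eq_integral_norm, one_mul]
    have h1 := norm_condExp_le (μ := μ) (m := MeasurableSpace.comap φ mΩ') (f : Ω → 𝕜)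
    have h2 : Integrable (fun x => ‖(f : Ω → 𝕜) x‖) μ := (L1.integrable_coeFn f).norm
    calc ∫ x, ‖H (f : Ω → 𝕜) (φ x)‖ ∂μ
        = ∫ x, ‖(μ[(f : Ω → 𝕜) | MeasurableSpace.comap φ mΩ']) x‖ ∂μ := by
          refine integral_congr_ae (Eventually.of_forall (fun x => ?_))
          simp only [hHx]
      _ ≤ ∫ x, (μ[(fun x => ‖(f : Ω → 𝕜) x‖) | MeasurableSpace.comap φ mΩ']) x ∂μ :=
          integral_mono_ae integrable_condExp.norm integrable_condExp h1
      _ = ∫ x, ‖(f : Ω → 𝕜) x‖ ∂μ := integral_condExp hcomap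
  refine ⟨T₀.mkContinuous 1 hT₀, S₀.mkContinuous 1 hS₀, LinearMap.mkContinuous_norm_le _ zero_le_one _,
    LinearMap.mkContinuous_norm_le _ zero_le_one _, fun g => ?_⟩
  show tl ν (fun y => k * H ((tl μ (fun x => k⁻¹ * (g : Ω' → 𝕜) (φ x)) : Lp 𝕜 1 μ) : Ω → 𝕜) y) = g
  have h1 : H ((tl μ (fun x => k⁻¹ * (g : Ω' → 𝕜) (φ x)) : Lp 𝕜 1 μ) : Ω → 𝕜)
      =ᵐ[ν] fun y => k⁻¹ * (g : Ω' → 𝕜) y := by
    refine hHae ((hgm g).const_mul _) ?_
    have h2 := condExp_congr_ae (m := MeasurableSpace.comap φ mΩ')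
      (coeFn_tl ((hgi g).const_mul k⁻¹))
    have h3 : StronglyMeasurable[MeasurableSpace.comap φ mΩ'] (fun x => k⁻¹ * (g : Ω' → 𝕜) (φ x)) :=
      ((hgm g).const_mul k⁻¹).comp_measurable (comap_measurable φ)
    have h4 := condExp_of_stronglyMeasurable hcomap h3 ((hgi g).const_mul k⁻¹)
    filter_upwards [h2] with x hx2
    rw [hx2, h4]
  rw [tl_congr (g := (g : Ω' → 𝕜)) ?_, tl_coeFn]
  filter_upwards [h1] with y hy
  rw [hy, ← mul_assoc, mul_inv_cancel₀ hk0, one_mul]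

end DualL1
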