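import Pool.Agent.Helper60.L1F.PULL

/-! Modules PULLB and GEN. -/

namespace DualL1

open MeasureTheory Cardinal Filter
open scoped ENNReal Classical

universe u v

theorem st_PULLB : ST_PULLB.{u, v} := by
  intro 𝕜 _ Ω Ω' _ mΩ' μ ν c φ hμ hc0 hc hφ hmap hsurj
  have hc' : c.toReal ≠ 0 := (ENNReal.toReal_pos hc0 hc).ne'
  have hcpos : 0 < c.toReal := ENNReal.toReal_pos hc0 hc
  set k : 𝕜 := ((c.toReal : ℝ) : 𝕜) with hk
  have hk0 : k ≠ 0 := by rw [hk]; exact_mod_cast hc'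
  have hknorm : ‖k‖ = c.toReal := by rw [hk, RCLike.norm_ofReal, abs_of_pos hcpos]
  have hgm : ∀ g : Lp 𝕜 1 ν, StronglyMeasurable (g : Ω' → 𝕜) := fun g => Lp.stronglyMeasurable g
  have hgi : ∀ g : Lp 𝕜 1 ν, Integrable (fun x => (g : Ω' → 𝕜) (φ x)) μ := fun g =>
    (PULL_int hc0 hc hφ hmap (hgm g)).2 (L1.integrable_coeFn g)
  have hae : ∀ {g h : Ω' → 𝕜}, StronglyMeasurable g → StronglyMeasurable h → g =ᵐ[ν] h →
      ∀ᵐ x ∂μ, g (φ x) = h (φ x) := fun hg hh h => (PULL_ae hc0 hφ hmap hg hh).2 h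
  let T₀ : Lp 𝕜 1 ν →ₗ[𝕜] Lp 𝕜 1 μ :=
    { toFun := fun g => tl μ (fun x => k⁻¹ * (g : Ω' → 𝕜) (φ x))
      map_add' := fun g h => by
        rw [← tl_add' ((hgi g).const_mul _) ((hgi h).const_mul _)]
        refine tl_congr ?_
        filter_upwards [hae (hgm (g + h)) ((hgm g).add (hgm h)) (Lp.coeFn_add g h)] with x hx
        rw [hx, Pi.add_apply, mul_add]
      map_smul' := fun a g => by
        rw [RingHom.id_apply, ← tl_smul a ((hgi g).const_mul _)]
        refine tl_congr ?_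
        filter_upwards [hae (hgm (a • g)) ((hgm g).const_smul a) (Lp.coeFn_smul a g)] with x hx
        rw [hx, Pi.smul_apply, smul_eq_mul]
        ring }
  have hT₀ : ∀ g, ‖T₀ g‖ = ‖g‖ := by
    intro g
    show ‖tl μ (fun x => k⁻¹ * (g : Ω' → 𝕜) (φ x))‖ = ‖g‖
    rw [norm_tl ((hgi g).const_mul _)]
    simp only [norm_mul, norm_inv, hknorm]
    rw [integral_const_mul, PULL_norm hφ hmap (hgm g), L1.norm_eq_integral_norm, ← mul_assoc,
      inv_mul_cancel₀ hc', one_mul]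
  let T : Lp 𝕜 1 ν →ₗᵢ[𝕜] Lp 𝕜 1 μ := { toLinearMap := T₀, norm_map' := hT₀ }
  have hν : ∀ C, MeasurableSet C → ν C ≠ ∞ := by
    intro C hC
    have h1 : (μ.map φ) C = c * ν C := by rw [hmap]; rfl
    intro h2
    rw [h2, ENNReal.mul_top hc0] at h1
    rw [Measure.map_apply hφ hC] at h1
    exact measure_ne_top _ _ h1
  have hclosed : IsClosed ((LinearMap.range T.toLinearMap : Submodule 𝕜 (Lp 𝕜 1 μ)) :
      Set (Lp 𝕜 1 μ)) := by
    rw [LinearMap.coe_range]
    exact T.isometry.isClosedEmbedding.isClosed_range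
  have htop : LinearMap.range T.toLinearMap = ⊤ := by
    refine eq_top_of_ind _ hclosed (fun B hB hμB => ?_)
    obtain ⟨C, hC, hBC⟩ := hsurj B hB
    have hCint : Integrable (C.indicator (fun _ => k)) ν :=
      (integrable_indicator_iff hC).2 (integrableOn_const (hν C hC))
    refine ⟨tl ν (C.indicator (fun _ => k)), ?_⟩
    show tl μ (fun x => k⁻¹ * (tl ν (C.indicator (fun _ => k)) : Ω' → 𝕜) (φ x)) = ind μ 𝕜 B
    rw [ind_eq_tl hB hμB]
    refine tl_congr ?_
    have h1 := hae (hgm _) ((stronglyMeasurable_const (b := k)).indicator hC) (coeFn_tl hCint)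
    have h2 : ∀ᵐ x ∂μ, x ∉ symmDiff B (φ ⁻¹' C) := measure_eq_zero_iff_ae_notMem.1 hBC
    filter_upwards [h1, h2] with x hx1 hx2
    rw [hx1]
    have h3 : x ∈ B ↔ φ x ∈ C := by
      rw [Set.mem_symmDiff] at hx2
      constructor
      · intro hxB
        by_contra hxC
        exact hx2 (Or.inl ⟨hxB, hxC⟩)
      · intro hxC
        by_contra hxB
        exact hx2 (Or.inr ⟨hxC, hxB⟩)
    by_cases hxB : x ∈ B
    · rw [Set.indicator_of_mem hxB, Set.indicator_of_mem (h3.1 hxB), inv_mul_cancel₀ hk0]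
    · rw [Set.indicator_of_notMem hxB, Set.indicator_of_notMem (fun h => hxB (h3.2 h)), mul_zero]
  have hsur : Function.Surjective T := by
    intro f
    have h1 : f ∈ LinearMap.range T.toLinearMap := by rw [htop]; trivial
    obtain ⟨g, hg⟩ := h1
    exact ⟨g, hg⟩
  let e : Lp 𝕜 1 ν ≃ₗᵢ[𝕜] Lp 𝕜 1 μ := LinearIsometryEquiv.ofSurjective T hsur
  refine ⟨(e.symm : Lp 𝕜 1 μ ≃ₗᵢ[𝕜] Lp 𝕜 1 ν).toLinearIsometry.toContinuousLinearMap,
    e.toLinearIsometry.toContinuousLinearMap, ?_, ?_, fun x => ?_⟩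
  · exact LinearIsometry.norm_toContinuousLinearMap_le _
  · exact LinearIsometry.norm_toContinuousLinearMap_le _
  · exact e.apply_symm_apply x

theorem st_GEN (hB : ST_PULLB.{u, v}) : ST_GEN.{u, v} := by
  intro 𝕜 _ Ω mΩ μ A 𝒢 I hA hA0 hAt h𝒢 hgen hI hcard
  obtain ⟨a, ha⟩ : ∃ a : I → Set Ω, (𝒢 ⊆ Set.range a ∧ ∀ i, MeasurableSet (a i)) := by
    by_cases hne : Nonempty 𝒢
    · obtain ⟨f⟩ := (Cardinal.le_def _ _).1 hcard
      have hsurj : Function.Surjective (Function.invFun f) := Function.invFun_surjective f.injective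
      refine ⟨fun i => (Function.invFun f i : 𝒢).1, ?_, fun i => h𝒢 _ (Function.invFun f i).2⟩
      intro G hG
      obtain ⟨i, hi⟩ := hsurj ⟨G, hG⟩
      exact ⟨i, by simp only [hi]⟩
    · refine ⟨fun _ => ∅, ?_, fun _ => MeasurableSet.empty⟩
      intro G hG
      exact (hne ⟨⟨G, hG⟩⟩).elim
  obtain ⟨haG, ham⟩ := ha
  set φ : Ω → (I → Bool) := fun x i => decide (x ∈ a i) with hφdef
  have hφ : Measurable φ := by
    refine measurable_pi_lambda _ (fun i => ?_)
    refine measurable_to_bool ?_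
    have : (fun x => decide (x ∈ a i)) ⁻¹' {true} = a i := by
      ext x; simp
    rw [this]
    exact ham i
  have hfin : IsFiniteMeasure (μ.restrict A) := ⟨by
    rw [Measure.restrict_apply_univ]; exact hAt.lt_top⟩
  set c : ℝ≥0∞ := μ A with hcdef
  have hc0 : c ≠ 0 := hA0.ne'
  set ν : Measure (I → Bool) := c⁻¹ • (μ.restrict A).map φ with hν
  have hmap : (μ.restrict A).map φ = c • ν := by
    rw [hν, smul_smul, ENNReal.mul_inv_cancel hc0 hAt, one_smul]
  refine ⟨ν, ⟨?_⟩, ?_⟩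
  · rw [hν, Measure.smul_apply, Measure.map_apply hφ MeasurableSet.univ, Set.preimage_univ,
      Measure.restrict_apply_univ, smul_eq_mul, ENNReal.inv_mul_cancel hc0 hAt]
  · refine hB 𝕜 (μ.restrict A) ν c φ hfin hc0 hAt hφ hmap (fun E hE => ?_)
    obtain ⟨G, hG, hEG⟩ := hgen (E ∩ A) Set.inter_subset_right (hE.inter hA)
    have hle : MeasurableSpace.generateFrom 𝒢 ≤ MeasurableSpace.comap φ MeasurableSpace.pi := by
      refine MeasurableSpace.generateFrom_le (fun G hG => ?_)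
      obtain ⟨i, rfl⟩ := haG hG
      refine ⟨(fun x : I → Bool => x i) ⁻¹' {true}, ?_, ?_⟩
      · exact measurable_pi_apply i (measurableSet_singleton true)
      · ext x; simp [hφdef]
    obtain ⟨C, hC, hCG⟩ := hle G hG
    refine ⟨C, hC, ?_⟩
    rw [hCG]
    have hGm : MeasurableSet G := by
      rw [← hCG]; exact hφ hC
    rw [Measure.restrict_apply (hE.symmDiff hGm)]
    refine measure_mono_null ?_ hEG
    intro x hx
    obtain ⟨hx1, hxA⟩ := hx
    rw [Set.mem_symmDiff] at hx1 ⊢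
    rcases hx1 with ⟨h1, h2⟩ | ⟨h1, h2⟩
    · exact Or.inl ⟨⟨h1, hxA⟩, fun h => h2 h.1⟩
    · exact Or.inr ⟨⟨h1, hxA⟩, fun h => h2 h.1⟩

end DualL1
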