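import Pool.Agent.Helper60.L1F.ZFC
import Pool.Agent.Helper22.L1F.COPIES
import Pool.Agent.Helper22.L1F.KCARD
import Pool.Agent.Helper22.L1F.KUNA
import Pool.Agent.Helper22.L1F.KUNS
import Pool.Agent.Helper22.L1F.SEPM
import Pool.Agent.Helper96.L1F.KUNT

/-! Module SUFFCH: sufficiency under the continuum hypothesis. -/

namespace DualL1

open MeasureTheory Cardinal Filter
open scoped ENNReal Classical

universe u v w x y

/-- an `ℓ¹`-sum is isometric to `lp E 1` -/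
lemma SUFFCH_isom {𝕜 : Type v} [RCLike 𝕜] {J : Type u} {E : J → Type w}
    [∀ j, NormedAddCommGroup (E j)] [∀ j, NormedSpace 𝕜 (E j)] [∀ j, CompleteSpace (E j)]
    {X : Type x} [NormedAddCommGroup X] [NormedSpace 𝕜 X] [CompleteSpace X]
    (hX : IsL1Sum 𝕜 E X) : Nonempty (X ≃ₗᵢ[𝕜] lp E 1) := by
  obtain ⟨i, hi1, hi2⟩ := hX
  set T := SUM1_T i hi1 with hT
  have hcl : IsClosed (LinearMap.range T.toLinearMap : Set X) :=
    T.isometry.isClosedEmbedding.isClosed_range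
  have htop := hi2 _ hcl (fun j y => by
    refine ⟨lp.single 1 j y, ?_⟩
    show SUM1_T i hi1 (lp.single 1 j y) = i j y
    rw [SUM1_T_apply, tsum_eq_single j]
    · rw [lp.single_apply_self]
    · intro k hk
      rw [lp.single_apply_ne _ _ _ hk, map_zero])
  have hsurj : Function.Surjective T := fun y => by
    have : y ∈ LinearMap.range T.toLinearMap := by rw [htop]; trivial
    exact this
  exact ⟨(LinearIsometryEquiv.ofSurjective T hsurj).symm⟩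

lemma SUFFCH_compl_of_isom {𝕜 : Type v} [RCLike 𝕜] {E : Type w} {F : Type x}
    [NormedAddCommGroup E] [NormedSpace 𝕜 E] [NormedAddCommGroup F] [NormedSpace 𝕜 F]
    (e : E ≃ₗᵢ[𝕜] F) : Compl1 𝕜 E F :=
  ⟨e.toLinearIsometry.toContinuousLinearMap, e.symm.toLinearIsometry.toContinuousLinearMap,
    LinearIsometry.norm_toContinuousLinearMap_le _, LinearIsometry.norm_toContinuousLinearMap_le _,
    fun x => e.symm_apply_apply x⟩

/-- the sum over `J × ℕ` of repeated spaces inside the iterated sum -/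
lemma SUFFCH_prod {𝕜 : Type v} [RCLike 𝕜] {J : Type u} (E : J → Type w)
    [∀ j, NormedAddCommGroup (E j)] [∀ j, NormedSpace 𝕜 (E j)] [∀ j, CompleteSpace (E j)] :
    Compl1 𝕜 (lp (fun p : J × ℕ => E p.1) 1) (lp (fun j : J => lp (fun _ : ℕ => E j) 1) 1) := by
  have h1 : IsL1Sum 𝕜 (fun j : J => lp (fun _ : ℕ => E j) 1)
      (lp (fun j : J => lp (fun _ : ℕ => E j) 1) 1) := st_SUM4 𝕜 J _
  have h2 : ∀ j, IsL1Sum 𝕜 (fun _ : ℕ => E j) (lp (fun _ : ℕ => E j) 1) :=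
    fun j => st_SUM4 𝕜 ℕ _
  have h3 : IsL1Sum 𝕜 (fun p : (Σ _ : J, ℕ) => E p.1)
      (lp (fun j : J => lp (fun _ : ℕ => E j) 1) 1) :=
    st_SUM2 𝕜 J (fun j : J => lp (fun _ : ℕ => E j) 1) _ (fun _ => ℕ) (fun j _ => E j) h1 h2
  have h4 : IsL1Sum 𝕜 (fun p : J × ℕ => E p.1)
      (lp (fun j : J => lp (fun _ : ℕ => E j) 1) 1) :=
    st_SUM3 𝕜 (Σ _ : J, ℕ) (J × ℕ) (Equiv.sigmaEquivProd J ℕ).symm
      (fun p : (Σ _ : J, ℕ) => E p.1) _ h3
  obtain ⟨e⟩ := SUFFCH_isom h4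
  exact SUFFCH_compl_of_isom e.symm

/-- the Kunen compact set -/
lemma SUFFCH_kunen (hCH : (𝔠 : Cardinal.{u}) = ℵ₁) :
    ∃ (K : Set (W1.{u} → Bool)) (ν : Measure (W1.{u} → Bool)), IsClosed K ∧
      IsProbabilityMeasure ν ∧ CarriedBy K ν ∧ Thick ν ℵ₁ Set.univ ∧
      ∀ m : Measure (W1.{u} → Bool), IsProbabilityMeasure m → CarriedBy K m →
        m.MutuallySingular ν → ∃ S : Set W1.{u}, S.Countable ∧ ∀ i ∉ S, m {x | x i = true} = 0 := by
  obtain ⟨F, hF⟩ := st_KUNA.{u} hCH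
  obtain ⟨h1, h2, h3⟩ := st_KUNS F hF
  have hm : Measurable (kx F) := st_KUNM F hF.closed hF.dep
  exact ⟨kK F, _, h1, Measure.isProbabilityMeasure_map hm.aemeasurable, h2,
    st_KUNT st_KUNM F hF, h3⟩

/-- the case where all types are at most `ℵ₁` -/
lemma SUFFCH_main {𝕜 : Type v} [RCLike 𝕜] (hCH : (𝔠 : Cardinal.{u}) = ℵ₁)
    {Ω : Type u} [MeasurableSpace Ω] (μ : Measure Ω) (h0 : Cond μ ℵ₀)
    (hex : ∃ A, Thick μ ℵ₁ A) (hno : ∀ κ : Cardinal.{u}, ℵ₁ < κ → ¬ ∃ A, Thick μ κ A) :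
    IsoToDual.{max u v, v, max u v} 𝕜 (Lp 𝕜 1 μ) := by
  obtain ⟨𝒟, h𝒟⟩ := st_HOM.{u} st_FINGEN μ
  refine SUFF_split st_SUM1 st_SUM1 st_SUM4 st_SUM6 st_C0 st_DPROD st_DEC μ 𝒟 h𝒟 ?_
  set J := {A : 𝒟 // ¬ IsAtomOf μ A.1} with hJ
  have hty : ∀ A : J, ∃ κ : Cardinal.{u}, ℵ₀ ≤ κ ∧ Hom μ κ A.1.1 := by
    intro A
    rcases h𝒟.1 A.1.1 A.1.2 with h | h
    · exact (A.2 h.1).elim
    · exact h
  have hth0 : ∀ A : J, Thick μ ℵ₀ A.1.1 := by
    intro A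
    obtain ⟨κ, hκ, h⟩ := hty A
    exact h.1.mono' hκ
  -- the number of pieces
  have hJcard : 𝔠 ≤ #J := by
    obtain ⟨A, hA⟩ := hex
    have h1 := st_CARD μ 𝒟 h𝒟 ℵ₀ le_rfl h0 ⟨A, hA.mono' aleph0_lt_aleph_one.le⟩
    rw [Cardinal.two_power_aleph0] at h1
    refine h1.trans ?_
    refine Cardinal.mk_le_of_injective (f := fun B : {B : Set Ω // B ∈ 𝒟 ∧ Thick μ ℵ₀ B} =>
      (⟨⟨B.1, B.2.1⟩, fun h => SUFF_thick_not_atom le_rfl B.2.2 h⟩ : J)) ?_
    intro B C hBC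
    have h1 := congrArg (fun x => x.1.1) hBC
    exact Subtype.ext h1
  -- the data
  have hdata : ∀ A : J, ∃ (I : Type u) (K : Set (I → Bool)) (_ : CompactSpace K)
      (M : Set (Measure (I → Bool))) (ν₀ : Measure (I → Bool)), ν₀ ∈ M ∧
      IsL1Sum 𝕜 (fun m : M => Lp 𝕜 1 m.1) (C(K, 𝕜) →L[𝕜] 𝕜) ∧
      Compl1 𝕜 (Lp 𝕜 1 (μ.restrict A.1.1)) (Lp 𝕜 1 ν₀) ∧
      Compl1 𝕜 (Lp 𝕜 1 ν₀) (Lp 𝕜 1 (μ.restrict A.1.1)) ∧
      (∀ m ∈ M, m ≠ ν₀ → ∀ B : J, Compl1 𝕜 (Lp 𝕜 1 m) (Lp 𝕜 1 (μ.restrict B.1.1))) ∧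
      #M ≤ 𝔠 := by
    intro A
    obtain ⟨κ, hκ, hth, 𝒢, h𝒢m, h𝒢c, h𝒢g⟩ := hty A
    rcases eq_or_lt_of_le hκ with hκ0 | hκ0
    · -- type `ℵ₀`
      have hinf : Infinite (ULift.{u} ℕ) := inferInstance
      have hIc : #(ULift.{u} ℕ) = ℵ₀ := by simp
      have hcs : CompactSpace (Set.univ : Set (ULift.{u} ℕ → Bool)) :=
        isCompact_iff_compactSpace.1 isCompact_univ
      have hcar : ∀ ν : Measure (ULift.{u} ℕ → Bool), CarriedBy Set.univ ν := by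
        intro ν C _ hC
        rw [Set.disjoint_univ] at hC
        rw [hC, measure_empty]
      obtain ⟨M, hM0, hM1, hM2, hM3⟩ := ckb_holds 𝕜 (ULift.{u} ℕ) Set.univ
        (coinPi (ULift.{u} ℕ)) inferInstance (hcar _)
      refine ⟨ULift.{u} ℕ, Set.univ, hcs, M, _, hM0, hM3, ?_, ?_, ?_, ?_⟩
      · obtain ⟨ν, hν, hc⟩ := gen_holds 𝕜 μ A.1.1 𝒢 (ULift.{u} ℕ) hth.1 hth.2.1 hth.2.2.1 h𝒢m
          h𝒢g inferInstance (by rw [hIc, hκ0]; exact h𝒢c)
        have h2 := emb_holds 𝕜 (coinPi (ULift.{u} ℕ)) #(ULift.{u} ℕ) Set.univ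
          (by rw [hIc]) (st_COIN st_FINGEN _ hinf) (ULift.{u} ℕ) le_rfl ν hν
        rw [Measure.restrict_univ] at h2
        exact hc.trans' h2
      · exact emb_holds 𝕜 μ ℵ₀ A.1.1 le_rfl (hth0 A) (ULift.{u} ℕ) (by rw [hIc]) _ inferInstance
      · intro m hm _ B
        exact emb_holds 𝕜 μ ℵ₀ B.1.1 le_rfl (hth0 B) (ULift.{u} ℕ) (by rw [hIc]) _ (hM1 m hm).1
      · have h2 : #M ≤ #{ν : Measure (ULift.{u} ℕ → Bool) // IsProbabilityMeasure ν} :=
          Cardinal.mk_le_of_injective (f := fun m : M => ⟨m.1, (hM1 m.1 m.2).1⟩)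
            (fun a b hab => Subtype.ext (congrArg (fun x => x.1) hab))
        refine h2.trans ((st_CARDM _ hinf).trans ?_)
        rw [hIc, Cardinal.two_power_aleph0]
    · -- type `ℵ₁`
      have hκ1 : κ = ℵ₁ := by
        refine le_antisymm ?_ ?_
        · by_contra hlt
          exact hno κ (not_le.1 hlt) ⟨_, hth⟩
        · rw [← succ_aleph0]
          exact Order.succ_le_of_lt hκ0
      obtain ⟨K, ν₀, hKc, hν₀, hcar, hthν, hsing⟩ := SUFFCH_kunen.{u} hCH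
      have hIc : #W1.{u} = ℵ₁ := by simp [W1]
      have hcs : CompactSpace K := isCompact_iff_compactSpace.1 hKc.isCompact
      obtain ⟨M, hM0, hM1, hM2, hM3⟩ := ckb_holds 𝕜 W1.{u} K ν₀ hν₀ hcar
      have hne : Nonempty W1.{u} := by
        rw [← Cardinal.mk_ne_zero_iff, hIc]
        exact (aleph0_pos.trans aleph0_lt_aleph_one).ne'
      have hmM : ∀ m ∈ M, m ≠ ν₀ → IsProbabilityMeasure m ∧
          ∃ S : Set W1.{u}, S.Countable ∧ ∀ i ∉ S, m {x | x i = true} = 0 := by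
        intro m hm hmν
        exact ⟨(hM1 m hm).1, hsing m (hM1 m hm).1 (hM1 m hm).2 (hM2 hm hM0 hmν)⟩
      refine ⟨W1.{u}, K, hcs, M, ν₀, hM0, hM3, ?_, ?_, ?_, ?_⟩
      · obtain ⟨ν, hν, hc⟩ := gen_holds 𝕜 μ A.1.1 𝒢 W1.{u} hth.1 hth.2.1 hth.2.2.1 h𝒢m
          h𝒢g hne (by rw [hIc, ← hκ1]; exact h𝒢c)
        have h2 := emb_holds 𝕜 ν₀ ℵ₁ Set.univ aleph0_lt_aleph_one.le hthν W1.{u} hIc.le ν hν
        rw [Measure.restrict_univ] at h2
        exact hc.trans' h2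
      · exact emb_holds 𝕜 μ ℵ₁ A.1.1 aleph0_lt_aleph_one.le (hκ1 ▸ hth) W1.{u} hIc.le ν₀ hν₀
      · intro m hm hmν B
        exact st_SEPM gen_holds emb_holds 𝕜 μ B.1.1 W1.{u} m (hth0 B) (hmM m hm hmν).1
          (hmM m hm hmν).2
      · have h1 : #(↥(M \ {ν₀})) ≤ ℵ₁ := by
          have h2 : #(↥(M \ {ν₀})) ≤ #{m : Measure (W1.{u} → Bool) // IsProbabilityMeasure m ∧
              ∃ S : Set W1.{u}, S.Countable ∧ ∀ i ∉ S, m {x | x i = true} = 0} :=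
            Cardinal.mk_le_of_injective (f := fun m : ↥(M \ {ν₀}) =>
              ⟨m.1, hmM m.1 m.2.1 m.2.2⟩) (fun a b hab =>
                Subtype.ext (congrArg (fun x => x.1) hab))
          exact h2.trans (st_KCARD _ hIc hCH)
        have h3 : M = insert ν₀ (M \ {ν₀}) := by
          rw [Set.insert_sdiff_singleton, Set.insert_eq_of_mem hM0]
        rw [h3]
        refine (Cardinal.mk_insert_le).trans ?_
        rw [hCH]
        calc #(↥(M \ {ν₀})) + 1 ≤ ℵ₁ + ℵ₁ :=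
              add_le_add h1 (Cardinal.one_lt_aleph0.le.trans aleph0_lt_aleph_one.le)
          _ = ℵ₁ := Cardinal.add_eq_self aleph0_lt_aleph_one.le
  choose I K hcs M ν₀ hν₀ hsum hc1 hc2 hc3 hMc using hdata
  refine predual_holds 𝕜 J (fun A => C(K A, 𝕜)) (fun A => M A)
    (fun A m => Lp 𝕜 1 m.1) _ hsum ?_ ?_
  · refine st_SUM5 𝕜 _ _ _ _ (fun A => ⟨A, (0, ⟨ν₀ A, hν₀ A⟩)⟩) ?_ (fun A => hc1 A)
    intro A B hAB
    exact (Sigma.mk.inj_iff.1 hAB).1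
  · -- counting
    have hPc : #(Σ A : J, ℕ × M A) ≤ #J := by
      have haleph : ℵ₀ ≤ #J := Cardinal.aleph0_le_continuum.trans hJcard
      rw [Cardinal.mk_sigma]
      refine (Cardinal.sum_le_sum _ (fun _ => #J) (fun A => ?_)).trans ?_
      · rw [Cardinal.mk_prod, Cardinal.mk_nat, Cardinal.lift_aleph0, Cardinal.lift_uzero]
        exact Cardinal.mul_le_of_le haleph haleph ((hMc A).trans hJcard)
      · rw [Cardinal.sum_const, Cardinal.lift_id, Cardinal.mul_eq_self haleph]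
    obtain ⟨h⟩ := (Cardinal.le_def _ _).1 hPc
    let g : (Σ A : J, ℕ × M A) → J × ℕ := fun p =>
      if p.2.2.1 = ν₀ p.1 then (p.1, 2 * p.2.1) else (h p, 1)
    have hg : Function.Injective g := by
      intro p q hpq
      simp only [g] at hpq
      by_cases h1 : p.2.2.1 = ν₀ p.1
      · by_cases h2 : q.2.2.1 = ν₀ q.1
        · rw [if_pos h1, if_pos h2] at hpq
          obtain ⟨A, n, m⟩ := p
          obtain ⟨B, k, l⟩ := q
          simp only [Prod.mk.injEq] at hpq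
          obtain ⟨rfl, hnk⟩ := hpq
          simp only at h1 h2
          have h3 : n = k := by omega
          have h4 : m = l := Subtype.ext (h1.trans h2.symm)
          rw [h3, h4]
        · rw [if_pos h1, if_neg h2] at hpq
          have := congrArg Prod.snd hpq
          simp only at this
          omega
      · by_cases h2 : q.2.2.1 = ν₀ q.1
        · rw [if_neg h1, if_pos h2] at hpq
          have := congrArg Prod.snd hpq
          simp only at this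
          omega
        · rw [if_neg h1, if_neg h2] at hpq
          exact h.injective (congrArg Prod.fst hpq)
    have hgc : ∀ p : (Σ A : J, ℕ × M A), Compl1 𝕜 (Lp 𝕜 1 p.2.2.1)
        (Lp 𝕜 1 (μ.restrict (g p).1.1.1)) := by
      intro p
      by_cases h1 : p.2.2.1 = ν₀ p.1
      · have h2 : (g p).1 = p.1 := by simp only [g, if_pos h1]
        have h3 : ∀ (m : Measure (I p.1 → Bool)) (B : J), m = ν₀ p.1 → B = p.1 →
            Compl1 𝕜 (Lp 𝕜 1 m) (Lp 𝕜 1 (μ.restrict B.1.1)) := by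
          rintro m B rfl rfl
          exact hc2 _
        exact h3 _ _ h1 h2
      · exact hc3 p.1 _ p.2.2.2 h1 _
    have k1 : Compl1 𝕜 (lp (fun p : (Σ A : J, ℕ × M A) => Lp 𝕜 1 p.2.2.1) 1)
        (lp (fun p : J × ℕ => Lp 𝕜 1 (μ.restrict p.1.1.1)) 1) :=
      st_SUM5 𝕜 _ _ _ _ g hg hgc
    have k2 := SUFFCH_prod (𝕜 := 𝕜) (fun A : J => Lp 𝕜 1 (μ.restrict A.1.1))
    have k3 : Compl1 𝕜 (lp (fun A : J => lp (fun _ : ℕ => Lp 𝕜 1 (μ.restrict A.1.1)) 1) 1)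
        (lp (fun A : J => Lp 𝕜 1 (μ.restrict A.1.1)) 1) := by
      refine st_SUM5 𝕜 _ _ _ _ id Function.injective_id (fun A => ?_)
      obtain ⟨κ, hκ, hH⟩ := hty A
      exact st_COPIES gen_holds emb_holds st_SUM5 𝕜 μ κ A.1.1 hκ hH
    exact (k1.trans' k2).trans' k3

theorem st_SUFFCH : ST_SUFFCH.{u, v} := by
  intro hCH0 𝕜 _ Ω _ μ hcond
  have hCH : (𝔠 : Cardinal.{u}) = ℵ₁ := by
    have h1 := congrArg Cardinal.lift.{u} hCH0
    rw [Cardinal.lift_continuum] at h1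
    simpa using h1
  by_cases hbig : ∃ κ : Cardinal.{u}, ℵ₁ < κ ∧ ∃ A, Thick μ κ A
  · obtain ⟨κ, hκ, hA⟩ := hbig
    refine suff_holds 𝕜 μ (fun κ' hκ' => ?_)
    by_cases h1 : κ' = ℵ₁
    · intro _
      obtain ⟨𝒞, hc, hd, hth⟩ := hcond κ (aleph0_lt_aleph_one.le.trans hκ.le) hκ.ne' hA
      refine ⟨𝒞, ?_, hd, fun C hC => ?_⟩
      · rw [h1]
        exact (Cardinal.power_le_power_left two_ne_zero hκ.le).trans hc
      · rw [h1]
        exact (hth C hC).mono' hκ.le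
    · exact hcond κ' hκ' h1
  · push Not at hbig
    by_cases hex : ∃ A, Thick μ ℵ₁ A
    · refine SUFFCH_main hCH μ (hcond ℵ₀ le_rfl aleph0_lt_aleph_one.ne) hex (fun κ hκ h => ?_)
      obtain ⟨A, hA⟩ := h
      exact hbig κ hκ A hA
    · refine suff_holds 𝕜 μ (fun κ' hκ' => ?_)
      by_cases h1 : κ' = ℵ₁
      · intro h
        rw [h1] at h
        exact (hex h).elim
      · exact hcond κ' hκ' h1

end DualL1
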