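import Pool.Agent.Helper60.L1F.NECO
import Pool.Agent.Helper60.L1F.SUFF
import Pool.Agent.Helper60.L1F.PREDUAL
import Pool.Agent.Helper60.L1F.DPROD
import Pool.Agent.Helper60.L1F.PULL
import Pool.Agent.Helper60.L1F.PULLB
import Pool.Agent.Helper60.L1F.DEC
import Pool.Agent.Helper16.L1F.HB
import Pool.Agent.Helper16.L1F.PEL
import Pool.Agent.Helper16.L1F.SUMB
import Pool.Agent.Helper22.L1F.ASSIGN
import Pool.Agent.Helper22.L1F.CARD
import Pool.Agent.Helper22.L1F.FREER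
import Pool.Agent.Helper22.L1F.NEC
import Pool.Agent.Helper27.L1F.CARDM
import Pool.Agent.Helper27.L1F.COUNT
import Pool.Agent.Helper27.L1F.DENS
import Pool.Agent.Helper27.L1F.TRUNC
import Pool.Agent.Helper53.L1F.AVG
import Pool.Agent.Helper53.L1F.RIESZ
import Pool.Agent.Helper53.L1F.SMALL
import Pool.Agent.Helper55.L1F.C0
import Pool.Agent.Helper55.L1F.CKA
import Pool.Agent.Helper55.L1F.SUMA
import Pool.Agent.Helper78.L1F.CKB
import Pool.Agent.Helper78.L1F.FREE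
import Pool.Agent.Helper96.L1F.COIN
import Pool.Agent.Helper96.L1F.EMB
import Pool.Agent.Helper96.L1F.FINGEN
import Pool.Agent.Helper96.L1F.HOM
import Pool.Agent.Helper96.L1F.MAPS
import Pool.Agent.Helper96.L1F.REAL

/-! The classification in ZFC. -/

namespace DualL1

open MeasureTheory Cardinal Filter
open scoped ENNReal Classical

universe u v w

theorem emb_holds : ST_EMB.{u, v} := st_EMB (st_MAPS st_REAL) st_PULL

theorem gen_holds : ST_GEN.{u, v} := st_GEN st_PULLB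

theorem predual_holds : ST_PREDUAL.{u, v} :=
  st_PREDUAL st_SUM1 st_SUM2 st_SUM2 st_SUM3 st_SUM4 st_SUM4 st_C0 st_PEL

theorem ckb_holds : ST_CKB.{u, v} := st_CKB st_CKA

theorem suff_holds : ST_SUFF.{u, v} :=
  st_SUFF st_SUM1 st_SUM1 st_SUM4 st_SUM5 st_SUM6 st_C0 st_DPROD st_DEC (st_HOM st_FINGEN) st_CARD
    st_CARDM ckb_holds (st_COIN st_FINGEN) gen_holds emb_holds st_ASSIGN predual_holds

theorem riesz_holds : ST_RIESZ.{u, v, w} := st_RIESZ (st_FREE st_FREER) st_HB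

theorem nec_holds : ST_NEC.{u, v, w} :=
  st_NEC (st_HOM st_FINGEN) st_DENS (st_COUNT st_AVG st_SMALL st_TRUNC) emb_holds

theorem neco_holds : ST_NECO.{u, v, w} := st_NECO st_FINGEN

/-- Sufficiency: if `Cond μ κ` holds for all infinite `κ` then `L¹(μ)` is isomorphic to a dual. -/
theorem sufficiency_zfc {𝕜 : Type v} [RCLike 𝕜] {Ω : Type u} [MeasurableSpace Ω] (μ : Measure Ω)
    (h : ∀ κ : Cardinal.{u}, ℵ₀ ≤ κ → Cond μ κ) :
    IsoToDual.{max u v, v, max u v} 𝕜 (Lp 𝕜 1 μ) := suff_holds 𝕜 μ h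

/-- Necessity of `Cond μ κ` for all infinite `κ ≠ ℵ₁`. -/
theorem necessity_zfc {𝕜 : Type v} [RCLike 𝕜] {Ω : Type u} [MeasurableSpace Ω] (μ : Measure Ω)
    {Y : Type w} [NormedAddCommGroup Y] [NormedSpace 𝕜 Y] (e : Lp 𝕜 1 μ ≃L[𝕜] (Y →L[𝕜] 𝕜))
    (κ : Cardinal.{u}) (hκ : ℵ₀ ≤ κ) (hκ1 : κ ≠ ℵ₁) : Cond μ κ := by
  rcases eq_or_lt_of_le hκ with h0 | h0
  · rw [← h0]
    exact neco_holds 𝕜 μ Y ⟨e⟩
  · refine nec_holds 𝕜 μ Y ⟨e⟩ κ h0 (fun I hI => ?_)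
    rintro ⟨T, c, hc, hT⟩
    refine riesz_holds 𝕜 I Y T c hc hT ?_
    rw [hI]
    refine lt_of_le_of_ne ?_ (Ne.symm hκ1)
    rw [← succ_aleph0]
    exact Order.succ_le_of_lt h0

end DualL1
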